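import Pool.Agent.H.MP_c90f74_nt.SF.Defs

/-!
# MP_c90f74_nt, MP: integers `n` for which many of the numbers `n - 2^k` have few small prime factors
-/

set_option autoImplicit false

namespace Pool.Agent.H.MP_c90f74_nt.MP

open Finset

/-- The number of the `k ≥ 1`, `2^k < n`, such that `n - 2^k` has at most `r` distinct prime factors `p ≤ z`. -/
noncomputable def fewCount (z : ℕ) (r : ℝ) (n : ℕ) : ℕ :=
  {k : ℕ | 1 ≤ k ∧ 2 ^ k < n ∧ ((((n - 2 ^ k).primeFactors.filter (fun p => p ≤ z)).card : ℕ) : ℝ) ≤ r}.ncard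

/-- `y_j`, with `y_(j+1) = y_j ^ (2^I)`. -/
def yj (L I j : ℕ) : ℕ := L ^ (3 * 2 ^ (I * j))

theorem yj_succ (L I j : ℕ) : yj L I (j + 1) = yj L I j ^ (2 ^ I) := by
  unfold yj
  rw [← pow_mul, mul_assoc, ← pow_add, mul_add, mul_one]

theorem yj_ge (L I j : ℕ) (hL : 1 ≤ L) : L ^ 3 ≤ yj L I j := by
  unfold yj
  refine Nat.pow_le_pow_right hL ?_
  have : 1 ≤ 2 ^ (I * j) := Nat.one_le_two_pow
  omega

theorem yj_mono (L I : ℕ) (hL : 1 ≤ L) {i j : ℕ} (h : i ≤ j) : yj L I i ≤ yj L I j := by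
  unfold yj
  refine Nat.pow_le_pow_right hL (Nat.mul_le_mul_left 3 (Nat.pow_le_pow_right (by norm_num) ?_))
  exact Nat.mul_le_mul_left I h

end Pool.Agent.H.MP_c90f74_nt.MP
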