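import Mathlib

/-!
# Geo: a sum with exponents growing geometrically
-/

set_option autoImplicit false

namespace Pool.Agent.H.MP_c90f74_nt.MP

open Finset

theorem geo (q : ℝ) (hq0 : 0 ≤ q) (hq : q ≤ 1 / 32) (m J I : ℕ) (hm : 1 ≤ m) (hI : 1 ≤ I) :
    ∑ j ∈ range J, q ^ (m * 2 ^ (I * (J - 1 - j))) ≤ 2 * q ^ m := by
  rw [Finset.sum_range_reflect (fun i => q ^ (m * 2 ^ (I * i))) J]
  have h1 : ∀ i ∈ range J, q ^ (m * 2 ^ (I * i)) ≤ q ^ m * (1 / 2) ^ i := by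
    intro i _
    have h2 : i + 1 ≤ 2 ^ (I * i) := by
      calc i + 1 ≤ 2 ^ i := Nat.lt_two_pow_self
        _ ≤ 2 ^ (I * i) := Nat.pow_le_pow_right (by norm_num) (Nat.le_mul_of_pos_left i hI)
    have h3 : m + i ≤ m * 2 ^ (I * i) := by
      calc m + i ≤ m * (i + 1) := by nlinarith
        _ ≤ m * 2 ^ (I * i) := Nat.mul_le_mul_left m h2
    calc q ^ (m * 2 ^ (I * i)) ≤ q ^ (m + i) := pow_le_pow_of_le_one hq0 (by linarith) h3
      _ = q ^ m * q ^ i := pow_add _ _ _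
      _ ≤ q ^ m * (1 / 2) ^ i :=
        mul_le_mul_of_nonneg_left (pow_le_pow_left₀ hq0 (by linarith) i) (pow_nonneg hq0 m)
  calc _ ≤ ∑ i ∈ range J, q ^ m * (1 / 2) ^ i := Finset.sum_le_sum h1
    _ = q ^ m * ∑ i ∈ range J, (1 / 2 : ℝ) ^ i := by rw [Finset.mul_sum]
    _ ≤ q ^ m * 2 := by
      refine mul_le_mul_of_nonneg_left ?_ (pow_nonneg hq0 m)
      exact sum_geometric_two_le J
    _ = 2 * q ^ m := mul_comm _ _

end Pool.Agent.H.MP_c90f74_nt.MP
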