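import Pool.Agent.H.MP_c90f74_nt.MP.Defs

/-!
# Par: the parameters
-/

set_option autoImplicit false

namespace Pool.Agent.H.MP_c90f74_nt.MP

private theorem Par_L {x : ℕ} (hx : x ≠ 0) :
    Real.log x ≤ ((Nat.log 2 x + 1 : ℕ) : ℝ) * Real.log 2 ∧
      (((Nat.log 2 x + 1 : ℕ) : ℝ) - 1) * Real.log 2 ≤ Real.log x := by
  have hx0 : (0 : ℝ) < x := by exact_mod_cast Nat.pos_of_ne_zero hx
  constructor
  · have h : ((x : ℕ) : ℝ) ≤ (2 : ℝ) ^ (Nat.log 2 x + 1) := by
      exact_mod_cast (Nat.lt_pow_succ_log_self (by norm_num) x).le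
    have h1 := Real.log_le_log hx0 h
    rwa [Real.log_pow] at h1
  · have h : (2 : ℝ) ^ (Nat.log 2 x) ≤ (x : ℝ) := by
      exact_mod_cast Nat.pow_log_le_self 2 hx
    have h1 := Real.log_le_log (by positivity) h
    rw [Real.log_pow] at h1
    push_cast
    linarith

/-- The choice of `J`. -/
private theorem Par_J (I L z : ℕ) (l q : ℝ) (hI : 2 ≤ I) (hL : 3 ≤ L) (hq : 0 < q)
    (hLq : Real.log L ≤ 2 * q) (hz : 0 < z) (hW : 16 ^ I * q ≤ Real.log z) :
    ∃ J : ℕ, 1 ≤ J ∧ yj L I J ≤ z ∧ Real.log (Real.log z / q) / (4 * I) ≤ J := by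
  have hLr : (3 : ℝ) ≤ L := by exact_mod_cast hL
  have hlL : 0 < Real.log L := Real.log_pos (by linarith)
  have log2a : 0.6931471803 < Real.log 2 := Real.log_two_gt_d9
  have log2b : Real.log 2 < 0.6931471808 := Real.log_two_lt_d9
  have hIr : (2 : ℝ) ≤ I := by exact_mod_cast hI
  obtain ⟨v, hv⟩ : ∃ v : ℝ, v = Real.log z / (3 * Real.log L) := ⟨_, rfl⟩
  have h16 : (16 : ℝ) ^ I = 2 ^ I * 8 ^ I := by rw [← mul_pow]; norm_num
  have h8 : (6 : ℝ) ≤ 8 ^ I := by
    calc (6 : ℝ) ≤ 8 ^ 1 := by norm_num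
      _ ≤ 8 ^ I := pow_le_pow_right₀ (by norm_num) (by omega)
  have hv1 : (2 : ℝ) ^ I ≤ v := by
    rw [hv, le_div_iff₀ (by positivity)]
    calc (2 : ℝ) ^ I * (3 * Real.log L) ≤ 2 ^ I * (6 * q) :=
          mul_le_mul_of_nonneg_left (by linarith) (by positivity)
      _ ≤ 2 ^ I * (8 ^ I * q) := by gcongr
      _ = 16 ^ I * q := by rw [h16]; ring
      _ ≤ _ := hW
  have hv0 : 0 ≤ v := le_trans (by positivity) hv1
  obtain ⟨u, hu⟩ : ∃ u : ℕ, u = ⌊v⌋₊ := ⟨_, rfl⟩
  have hu1 : 2 ^ I ≤ u := by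
    rw [hu]
    refine Nat.le_floor ?_
    push_cast
    exact hv1
  have h2I : 1 < 2 ^ I := Nat.one_lt_two_pow (by omega)
  obtain ⟨J, hJ⟩ : ∃ J : ℕ, J = Nat.log (2 ^ I) u := ⟨_, rfl⟩
  have hu0 : u ≠ 0 := by omega
  have hJ1 : 1 ≤ J := by
    rw [hJ]
    exact (Nat.le_log_iff_pow_le h2I hu0).2 (by rwa [pow_one])
  have hJ2 : (2 ^ I) ^ J ≤ u := by
    rw [hJ]
    exact Nat.pow_log_le_self _ hu0
  have hJ3 : u < (2 ^ I) ^ (J + 1) := by
    rw [hJ]
    exact Nat.lt_pow_succ_log_self h2I u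
  refine ⟨J, hJ1, ?_, ?_⟩
  · -- `yj L I J ≤ z`
    have h1 : ((2 ^ (I * J) : ℕ) : ℝ) ≤ v := by
      have h2 : ((2 ^ (I * J) : ℕ) : ℝ) ≤ u := by
        rw [pow_mul]
        exact_mod_cast hJ2
      exact h2.trans (by rw [hu]; exact Nat.floor_le hv0)
    rw [hv, le_div_iff₀ (by positivity)] at h1
    have hzr : (0 : ℝ) < z := by exact_mod_cast hz
    have h3 : Real.log ((L : ℝ) ^ (3 * 2 ^ (I * J))) ≤ Real.log z := by
      rw [Real.log_pow]
      push_cast at h1 ⊢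
      linarith
    have h4 : (L : ℝ) ^ (3 * 2 ^ (I * J)) ≤ z :=
      (Real.log_le_log_iff (by positivity) hzr).1 h3
    unfold yj
    exact_mod_cast h4
  · -- the lower bound for `J`
    have hlz : 0 < Real.log z := lt_of_lt_of_le (by positivity) hW
    have hWpos : 0 < Real.log z / q := by positivity
    have h1 : v < 2 ^ (I * (J + 1)) := by
      have h2 : v < (u : ℝ) + 1 := by
        rw [hu]
        exact Nat.lt_floor_add_one v
      have h3 : (u : ℝ) + 1 ≤ ((2 ^ I) ^ (J + 1) : ℕ) := by exact_mod_cast hJ3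
      rw [pow_mul]
      push_cast at h3
      linarith
    have h4 : Real.log z / q ≤ 6 * v := by
      rw [hv, mul_div_assoc', div_le_div_iff₀ hq (by positivity)]
      nlinarith
    have h5 : Real.log (Real.log z / q) ≤ Real.log 6 + I * (J + 1) * Real.log 2 := by
      have h6 : Real.log z / q ≤ 6 * 2 ^ (I * (J + 1)) := by linarith
      have h7 := Real.log_le_log hWpos h6
      rw [Real.log_mul (by norm_num) (by positivity), Real.log_pow] at h7
      push_cast at h7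
      exact h7
    have h8' : 4 * Real.log 2 * I ≤ Real.log (Real.log z / q) := by
      have h6 : (16 : ℝ) ^ I ≤ Real.log z / q := by
        rw [le_div_iff₀ hq]
        exact hW
      have h7 := Real.log_le_log (by positivity) h6
      rw [Real.log_pow] at h7
      have h9 : Real.log 16 = 4 * Real.log 2 := by
        rw [show (16 : ℝ) = 2 ^ 4 by norm_num, Real.log_pow]
        norm_num
      rw [h9] at h7
      linarith
    have hlog6 : Real.log 6 ≤ 2.8 * Real.log 2 := by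
      have h6 : Real.log 6 ≤ Real.log 8 := Real.log_le_log (by norm_num) (by norm_num)
      have h9 : Real.log 36 ≤ Real.log 48 := Real.log_le_log (by norm_num) (by norm_num)
      have h10 : Real.log 36 = 2 * Real.log 6 := by
        rw [show (36 : ℝ) = 6 ^ 2 by norm_num, Real.log_pow]
        norm_num
      have h11 : Real.log 48 = 4 * Real.log 2 + Real.log 3 := by
        rw [show (48 : ℝ) = 2 ^ 4 * 3 by norm_num, Real.log_mul (by norm_num) (by norm_num), Real.log_pow]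
        norm_num
      have h12 : Real.log 3 ≤ 1.6 * Real.log 2 := by
        have h13 : Real.log (3 ^ 5) ≤ Real.log (2 ^ 8) := Real.log_le_log (by norm_num) (by norm_num)
        rw [Real.log_pow, Real.log_pow] at h13
        push_cast at h13
        linarith
      linarith
    obtain ⟨w, hw⟩ : ∃ w : ℝ, w = Real.log (Real.log z / q) := ⟨_, rfl⟩
    rw [← hw] at h5 h8' ⊢
    rw [div_le_iff₀ (by positivity)]
    by_contra hcon
    push Not at hcon
    have hIJ : (I : ℝ) * J ≤ w / 4 := by linarith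
    have a1 : (I : ℝ) * J * Real.log 2 ≤ w / 4 * Real.log 2 :=
      mul_le_mul_of_nonneg_right hIJ (by linarith)
    have hw0 : 0 ≤ w := le_trans (by positivity) h8'
    have a2 : w / 4 * Real.log 2 ≤ w / 4 * 0.6931471808 :=
      mul_le_mul_of_nonneg_left log2b.le (by linarith)
    have a3 : 2 * Real.log 2 ≤ I * Real.log 2 := mul_le_mul_of_nonneg_right hIr (by linarith)
    have a4 : (I : ℝ) * (J + 1) * Real.log 2 = I * J * Real.log 2 + I * Real.log 2 := by ring
    rw [a4] at h5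
    linarith

theorem par2 (I y0 : ℕ) (B : ℝ) (hI : 2 ≤ I) : ∃ x₀ : ℕ, ∀ x H z : ℕ, x₀ ≤ x → H ≤ x →
    Real.log x ^ (16 ^ I) ≤ z → z ^ 2 ≤ H →
    ∃ L m J : ℕ, L = Nat.log 2 x + 1 ∧ y0 ≤ L ∧ 3 ≤ L ∧ B ≤ Real.log L ∧ 1 ≤ m ∧ 1 ≤ J ∧
      z ^ (2 * m) ≤ H ∧ Real.log H / (4 * Real.log z) ≤ m ∧ yj L I J ≤ z ∧
      Real.log (Real.log z / Real.log (Real.log x)) / (4 * I) ≤ J ∧ Real.log x ≤ L ∧
      (L : ℝ) ≤ 2 * Real.log x ∧ 0 < Real.log z ∧ 0 < Real.log H ∧ x < 2 ^ L := by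
  have ht1 : Filter.Tendsto (fun x : ℕ => Real.log (x : ℝ)) Filter.atTop Filter.atTop :=
    Real.tendsto_log_atTop.comp tendsto_natCast_atTop_atTop
  have ht2 : Filter.Tendsto (fun x : ℕ => Real.log (Real.log (x : ℝ))) Filter.atTop
      Filter.atTop := Real.tendsto_log_atTop.comp ht1
  obtain ⟨x₀, hx₀⟩ := Filter.eventually_atTop.1
    ((ht1.eventually_ge_atTop (max 3 (y0 : ℝ))).and
      (ht2.eventually_ge_atTop (max 1 B)))
  refine ⟨x₀, fun x H z hx hHx hz hzH => ?_⟩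
  obtain ⟨h1, h2⟩ := hx₀ x hx
  obtain ⟨l, hl⟩ : ∃ l : ℝ, l = Real.log x := ⟨_, rfl⟩
  obtain ⟨q, hq⟩ : ∃ q : ℝ, q = Real.log l := ⟨_, rfl⟩
  rw [← hl, ← hq] at h2
  rw [← hl] at h1 hz
  have hl3 : 3 ≤ l := (le_max_left _ _).trans h1
  have hly : (y0 : ℝ) ≤ l := (le_max_right _ _).trans h1
  have hq1 : 1 ≤ q := (le_max_left _ _).trans h2
  have hqB : B ≤ q := (le_max_right _ _).trans h2
  have hl0 : 0 < l := by linarith
  have hxne : x ≠ 0 := by
    intro h
    rw [h, Nat.cast_zero, Real.log_zero] at hl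
    linarith
  have log2a : 0.6931471803 < Real.log 2 := Real.log_two_gt_d9
  have log2b : Real.log 2 < 0.6931471808 := Real.log_two_lt_d9
  obtain ⟨L, hL⟩ : ∃ L : ℕ, L = Nat.log 2 x + 1 := ⟨_, rfl⟩
  obtain ⟨e1, e2⟩ := Par_L hxne
  rw [← hL, ← hl] at e1 e2
  have hLl : l ≤ L := by
    have : (0 : ℝ) ≤ L := Nat.cast_nonneg L
    nlinarith
  have hL2 : (L : ℝ) ≤ 2 * l := by
    have : (0 : ℝ) ≤ L := Nat.cast_nonneg L
    nlinarith
  have hL0 : (0 : ℝ) < L := by linarith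
  have hLn : 3 ≤ L := by
    have : (3 : ℝ) ≤ L := by linarith
    exact_mod_cast this
  have hqL : q ≤ Real.log L := by
    rw [hq]
    exact Real.log_le_log hl0 hLl
  have hLq : Real.log L ≤ 2 * q := by
    have h := Real.log_le_log hL0 hL2
    rw [Real.log_mul (by norm_num) hl0.ne', ← hq] at h
    linarith
  -- `z`
  have hz0 : 0 < (z : ℝ) := lt_of_lt_of_le (by positivity) hz
  have hzn : 0 < z := by exact_mod_cast hz0
  have hW : 16 ^ I * q ≤ Real.log z := by
    have h3 := Real.log_le_log (by positivity) hz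
    rw [Real.log_pow, ← hq] at h3
    push_cast at h3
    exact h3
  have hlz : 0 < Real.log z := lt_of_lt_of_le (by positivity) hW
  obtain ⟨J, hJ1, hJz, hJW⟩ := Par_J I L z l q hI hLn (by linarith) hLq hzn hW
  -- `m`
  have hH0 : 0 < H := lt_of_lt_of_le (by positivity) hzH
  have hHr : (0 : ℝ) < H := by exact_mod_cast hH0
  have hlH : 2 * Real.log z ≤ Real.log H := by
    have h3 : ((z : ℝ)) ^ 2 ≤ H := by exact_mod_cast hzH
    have h4 := Real.log_le_log (by positivity) h3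
    rw [Real.log_pow] at h4
    push_cast at h4
    exact h4
  obtain ⟨w, hw⟩ : ∃ w : ℝ, w = Real.log H / (2 * Real.log z) := ⟨_, rfl⟩
  have hw1 : 1 ≤ w := by
    rw [hw, le_div_iff₀ (by positivity)]
    linarith
  obtain ⟨m, hm⟩ : ∃ m : ℕ, m = ⌊w⌋₊ := ⟨_, rfl⟩
  have hm1 : 1 ≤ m := by
    rw [hm]
    exact Nat.le_floor (by rwa [Nat.cast_one])
  have hmw : (m : ℝ) ≤ w := by
    rw [hm]
    exact Nat.floor_le (by linarith)
  have hmw2 : w < m + 1 := by
    rw [hm]
    exact Nat.lt_floor_add_one w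
  have hm1r : (1 : ℝ) ≤ m := by exact_mod_cast hm1
  refine ⟨L, m, J, hL, ?_, hLn, hqB.trans hqL, hm1, hJ1, ?_, ?_, hJz, ?_, ?_, ?_, hlz, by linarith, ?_⟩
  · have h3 : (y0 : ℝ) ≤ L := hly.trans hLl
    exact_mod_cast h3
  · have h3 : Real.log ((z : ℝ) ^ (2 * m)) ≤ Real.log H := by
      rw [Real.log_pow]
      rw [hw, le_div_iff₀ (by positivity)] at hmw
      push_cast
      linarith
    have h4 := (Real.log_le_log_iff (by positivity) hHr).1 h3
    exact_mod_cast h4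
  · have h3 : Real.log H / (4 * Real.log z) = w / 2 := by
      rw [hw, div_div]
      congr 1
      ring
    rw [h3]
    linarith
  · rw [← hl, ← hq]
    exact hJW
  · rw [← hl]
    exact hLl
  · rw [← hl]
    exact hL2
  · rw [hL]
    exact Nat.lt_pow_succ_log_self (by norm_num) x

end Pool.Agent.H.MP_c90f74_nt.MP
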