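import Pool.Agent.H.MP_c90f74_nt.SF.Cnt
import Pool.Agent.H.MP_c90f74_nt.SF.Avg

/-!
# KKb: the number of `n` with large `KK`
-/

set_option autoImplicit false

namespace Pool.Agent.H.MP_c90f74_nt.MP

open Finset SF

open Classical in
theorem kk_bound (x H L y I m t : ℕ) (ρ : ℝ) (hL : 2 ≤ L) (hy : L ^ 3 ≤ y) (hI : 16 ≤ I)
    (hw : (I : ℝ) / 4 ≤ ∑ p ∈ (Ioc y (y ^ (2 ^ I))).filter Nat.Prime, 1 / (p : ℝ))
    (hm : 1 ≤ m) (hH : (y ^ (2 ^ I)) ^ (2 * m) ≤ H) (hmt : m ≤ t) (htL : t ≤ L) (hρ0 : 0 ≤ ρ)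
    (hρ : ∀ i : ℕ, i < m → ((L : ℝ) - i) ≤ ρ * ((t : ℝ) - i)) :
    (((range H).filter (fun j => t ≤ (KK y (y ^ (2 ^ I)) L (x + 1 + j)).card)).card : ℝ) ≤
      8 * H * (16 / I * ρ) ^ m := by
  have hB0 : (0 : ℝ) ≤ 8 * H * (16 * m / (m * I)) ^ m := by positivity
  obtain ⟨J, hJ⟩ : ∃ J : Finset ℕ, J = (range H).filter
    (fun j => t ≤ (KK y (y ^ (2 ^ I)) L (x + 1 + j)).card) := ⟨_, rfl⟩
  have hf : ∀ j ∈ J, KK y (y ^ (2 ^ I)) L (x + 1 + j) ⊆ Icc 1 L ∧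
      t ≤ (KK y (y ^ (2 ^ I)) L (x + 1 + j)).card := by
    intro j hj
    rw [hJ, mem_filter] at hj
    refine ⟨?_, hj.2⟩
    unfold KK
    exact filter_subset _ _
  have hB : ∀ K ⊆ Icc 1 L, K.card = m →
      ((J.filter (fun j => K ⊆ KK y (y ^ (2 ^ I)) L (x + 1 + j))).card : ℝ) ≤
        8 * H * (16 * m / (m * I)) ^ m := by
    intro K hK hKr
    refine le_trans ?_ (cnt x H L y I m m hL hy (by omega) hw hm (by nlinarith) hH K hK hKr)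
    have h1 : (J.filter (fun j => K ⊆ KK y (y ^ (2 ^ I)) L (x + 1 + j))).card ≤
        ((range H).filter (fun j => K ⊆ KK y (y ^ (2 ^ I)) L (x + 1 + j))).card := by
      refine card_le_card ?_
      intro j hj
      rw [mem_filter] at hj ⊢
      rw [hJ, mem_filter] at hj
      exact ⟨hj.1.1, hj.2⟩
    exact_mod_cast h1
  have h1 := avg J L m t (fun j => KK y (y ^ (2 ^ I)) L (x + 1 + j)) hf _ ρ hB0 hB hmt htL hρ hρ0
  rw [← hJ]
  refine h1.trans (le_of_eq ?_)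
  have hm0 : (m : ℝ) ≠ 0 := by
    have : (1 : ℝ) ≤ m := by exact_mod_cast hm
    linarith
  have h2 : 16 * (m : ℝ) / (m * I) = 16 / I := by
    rw [mul_comm 16 (m : ℝ), mul_div_mul_left _ _ hm0]
  rw [h2, mul_pow]
  ring

end Pool.Agent.H.MP_c90f74_nt.MP
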