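import Pool.Agent.H.MP_c90f74_nt.MP.Defs

/-!
# Pig: a range with many exponents

`F` = the `k` counted by `fewCount` (in `Icc 1 L` since `2^k < n ≤ 2^(L+1)`). For `k ∈ F` and `j < J` with `k ∉ KK (yj j) (yj (j+1)) L n` some prime `p ∈ (yj j, yj (j+1)]` divides `n - 2^k`;
the ranges are disjoint and below `z`, so there are at most `r ≤ J/2` such `j`. Double counting.
-/

set_option autoImplicit false

namespace Pool.Agent.H.MP_c90f74_nt.MP

open Finset SF

private theorem Pig_one (n L I J z k : ℕ) (r : ℝ) (hL1 : 1 ≤ L) (hz : yj L I J ≤ z) (hk : 1 ≤ k) (hkL : k ≤ L)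
    (hkn : 2 ^ k < n) (hr : ((((n - 2 ^ k).primeFactors.filter (fun p => p ≤ z)).card : ℕ) : ℝ) ≤ r) :
    (((range J).filter (fun j => k ∉ KK (yj L I j) (yj L I (j + 1)) L n)).card : ℝ) ≤ r := by
  classical
  refine le_trans ?_ hr
  have hex : ∀ j : ℕ, ∃ p : ℕ, j ∈ (range J).filter (fun j => k ∉ KK (yj L I j) (yj L I (j + 1)) L n) →
      p.Prime ∧ yj L I j < p ∧ p ≤ yj L I (j + 1) ∧ p ∣ n - 2 ^ k := by
    intro j
    by_cases hj : j ∈ (range J).filter (fun j => k ∉ KK (yj L I j) (yj L I (j + 1)) L n)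
    · have h1 := (mem_filter.1 hj).2
      unfold KK at h1
      rw [mem_filter, not_and, not_and] at h1
      have h2 := h1 (mem_Icc.2 ⟨hk, hkL⟩) hkn
      push Not at h2
      obtain ⟨p, hp, hpd⟩ := h2
      unfold PP at hp
      rw [mem_filter, mem_Ioc] at hp
      exact ⟨p, fun _ => ⟨hp.2.1, hp.1.1, hp.1.2, hpd⟩⟩
    · exact ⟨0, fun h => absurd h hj⟩
  choose P hP using hex
  have hcard : ((range J).filter (fun j => k ∉ KK (yj L I j) (yj L I (j + 1)) L n)).card ≤
      ((n - 2 ^ k).primeFactors.filter (fun p => p ≤ z)).card := by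
    refine Finset.card_le_card_of_injOn P ?_ ?_
    · intro j hj
      rw [mem_coe] at hj
      obtain ⟨h1, h2, h3, h4⟩ := hP j hj
      rw [mem_coe, mem_filter, Nat.mem_primeFactors]
      have h5 := mem_range.1 (mem_filter.1 hj).1
      refine ⟨⟨h1, h4, by omega⟩, h3.trans ((yj_mono L I hL1 (by omega : j + 1 ≤ J)).trans hz)⟩
    · intro i hi j hj hij
      rw [mem_coe] at hi hj
      obtain ⟨-, h2, h3, -⟩ := hP i hi
      obtain ⟨-, h5, h6, -⟩ := hP j hj
      rcases lt_trichotomy i j with h | h | h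
      · have h7 := yj_mono L I hL1 (by omega : i + 1 ≤ j)
        omega
      · exact h
      · have h7 := yj_mono L I hL1 (by omega : j + 1 ≤ i)
        omega
  exact_mod_cast hcard

theorem pig (n L I J z : ℕ) (r T : ℝ) (hL1 : 1 ≤ L) (hJ : 1 ≤ J) (hr : 2 * r ≤ J) (hn : n ≤ 2 ^ (L + 1))
    (hz : yj L I J ≤ z) (hT : T ≤ fewCount z r n) :
    ∃ j < J, T ≤ 2 * ((KK (yj L I j) (yj L I (j + 1)) L n).card : ℝ) := by
  classical
  obtain ⟨F, hF⟩ : ∃ F : Finset ℕ, F = (Icc 1 L).filter (fun k => 2 ^ k < n ∧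
      ((((n - 2 ^ k).primeFactors.filter (fun p => p ≤ z)).card : ℕ) : ℝ) ≤ r) := ⟨_, rfl⟩
  have hFc : fewCount z r n = F.card := by
    unfold fewCount
    rw [← Set.ncard_coe_finset]
    congr 1
    ext k
    rw [hF, Set.mem_setOf_eq, mem_coe, mem_filter, mem_Icc]
    constructor
    · rintro ⟨h1, h2, h3⟩
      refine ⟨⟨h1, ?_⟩, h2, h3⟩
      have h4 : 2 ^ k < 2 ^ (L + 1) := lt_of_lt_of_le h2 hn
      have h5 := (Nat.pow_lt_pow_iff_right (by norm_num : 1 < 2)).1 h4
      omega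
    · rintro ⟨⟨h1, -⟩, h2, h3⟩
      exact ⟨h1, h2, h3⟩
  rw [hFc] at hT
  by_contra hcon
  push Not at hcon
  have hgood : ∀ k ∈ F, (J : ℝ) ≤ 2 * (((range J).filter (fun j => k ∈ KK (yj L I j) (yj L I (j + 1)) L n)).card : ℝ) := by
    intro k hk
    rw [hF, mem_filter, mem_Icc] at hk
    have h1 := Pig_one n L I J z k r hL1 hz hk.1.1 hk.1.2 hk.2.1 hk.2.2
    have h2 : ((range J).filter (fun j => k ∈ KK (yj L I j) (yj L I (j + 1)) L n)).card +
        ((range J).filter (fun j => k ∉ KK (yj L I j) (yj L I (j + 1)) L n)).card = J := by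
      rw [Finset.card_filter_add_card_filter_not, card_range]
    have h3 : (((range J).filter (fun j => k ∈ KK (yj L I j) (yj L I (j + 1)) L n)).card : ℝ) +
        (((range J).filter (fun j => k ∉ KK (yj L I j) (yj L I (j + 1)) L n)).card : ℝ) = J := by
      exact_mod_cast h2
    linarith
  have hdc : ∑ k ∈ F, (((range J).filter (fun j => k ∈ KK (yj L I j) (yj L I (j + 1)) L n)).card : ℝ) ≤
      ∑ j ∈ range J, ((KK (yj L I j) (yj L I (j + 1)) L n).card : ℝ) := by
    have h1 : ∑ k ∈ F, ((range J).filter (fun j => k ∈ KK (yj L I j) (yj L I (j + 1)) L n)).card =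
        ∑ j ∈ range J, (F.filter (fun k => k ∈ KK (yj L I j) (yj L I (j + 1)) L n)).card := by
      simp only [Finset.card_filter]
      exact Finset.sum_comm
    have h2 : ∑ j ∈ range J, (F.filter (fun k => k ∈ KK (yj L I j) (yj L I (j + 1)) L n)).card ≤
        ∑ j ∈ range J, (KK (yj L I j) (yj L I (j + 1)) L n).card := by
      refine Finset.sum_le_sum fun j _ => Finset.card_le_card ?_
      intro k hk
      exact (mem_filter.1 hk).2
    have h3 := h1.le.trans h2
    exact_mod_cast h3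
  have h1 : (F.card : ℝ) * J ≤ 2 * ∑ j ∈ range J, ((KK (yj L I j) (yj L I (j + 1)) L n).card : ℝ) := by
    calc (F.card : ℝ) * J = ∑ _k ∈ F, (J : ℝ) := by rw [Finset.sum_const, nsmul_eq_mul]
      _ ≤ ∑ k ∈ F, 2 * (((range J).filter (fun j => k ∈ KK (yj L I j) (yj L I (j + 1)) L n)).card : ℝ) :=
        Finset.sum_le_sum hgood
      _ = 2 * ∑ k ∈ F, (((range J).filter (fun j => k ∈ KK (yj L I j) (yj L I (j + 1)) L n)).card : ℝ) := by
        rw [Finset.mul_sum]
      _ ≤ _ := mul_le_mul_of_nonneg_left hdc (by norm_num)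
  have h2 : 2 * ∑ j ∈ range J, ((KK (yj L I j) (yj L I (j + 1)) L n).card : ℝ) < (F.card : ℝ) * J := by
    rw [Finset.mul_sum]
    have hne : (range J).Nonempty := ⟨0, mem_range.2 (by omega)⟩
    calc ∑ j ∈ range J, 2 * ((KK (yj L I j) (yj L I (j + 1)) L n).card : ℝ)
        < ∑ _j ∈ range J, T := Finset.sum_lt_sum_of_nonempty hne fun j hj => hcon j (mem_range.1 hj)
      _ = J * T := by rw [Finset.sum_const, nsmul_eq_mul, card_range]
      _ ≤ (F.card : ℝ) * J := by
        rw [mul_comm]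
        exact mul_le_mul_of_nonneg_right hT (Nat.cast_nonneg J)
  linarith

end Pool.Agent.H.MP_c90f74_nt.MP
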