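import Pool.Agent.H.MP_c90f74_nt.MP.KKb
import Pool.Agent.H.MP_c90f74_nt.MP.Pig
import Pool.Agent.H.MP_c90f74_nt.MP.Geo
import Pool.Agent.H.MP_c90f74_nt.MP.Par
import Pool.Agent.H.MP_c90f74_nt.SF.Win

/-!
# Main: the theorem

PROOF. `d ≤ 1` first. `I = ⌈4096/d⌉`, `C = 16^I`, `c = 1/(8 I)`. If `n ≤ 2 x` has at least `d log x` exponents `k` such that `n - 2^k` has at most `r = c log (log z/loglog x) ≤ J/2` prime factors `≤ z`, then
`|KK (yj j) (yj (j+1)) L n| ≥ d log x/2 ≥ d L/4` for some `j < J` (`pig`). `kk_bound` with `m_j = m 2^(I (J-1-j))`, `yj (j+1) ^ (2 m_j) = yj J ^ (2 m) ≤ z^(2m) ≤ H`, `ρ = 8/d`, `q = 128/(d I) ≤ 1/32`;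
`geo`: the sum over `j` is at most `16 H q^m ≤ H 2^(-m)`.
-/

set_option autoImplicit false

namespace Pool.Agent.H.MP_c90f74_nt.MP

open Finset SF

private theorem Main_pow (L I J j m : ℕ) (hj : j < J) :
    yj L I (j + 1) ^ (2 * (m * 2 ^ (I * (J - 1 - j)))) = yj L I J ^ (2 * m) := by
  unfold yj
  rw [← pow_mul, ← pow_mul]
  congr 1
  have h1 : I * J = I * (j + 1) + I * (J - 1 - j) := by
    rw [← mul_add]
    congr 1
    omega
  rw [h1, pow_add]
  ring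

/-- The bound for one `j`. -/
private theorem Main_one (x H z L m J I j t : ℕ) (d : ℝ) (hd : 0 < d) (hd1 : d ≤ 1) (hI : 16 ≤ I) (hL3 : 3 ≤ L)
    (hw : ∀ y : ℕ, L ≤ y → (I : ℝ) / 4 ≤ ∑ p ∈ (Ioc y (y ^ (2 ^ I))).filter Nat.Prime, 1 / (p : ℝ))
    (hlog : 2 / d ≤ Real.log L) (hm : 1 ≤ m) (hj : j < J) (hzH : z ^ (2 * m) ≤ H) (hJz : yj L I J ≤ z)
    (hHx : H ≤ x) (hxL : Real.log x ≤ L) (ht : t = ⌈d * L / 4⌉₊) :
    (((range H).filter (fun i => t ≤ (KK (yj L I j) (yj L I (j + 1)) L (x + 1 + i)).card)).card : ℝ) ≤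
      8 * H * (128 / (d * I)) ^ (m * 2 ^ (I * (J - 1 - j))) := by
  classical
  have hL1 : 1 ≤ L := by omega
  have hLr : (3 : ℝ) ≤ L := by exact_mod_cast hL3
  have hL0 : (0 : ℝ) < L := by linarith
  have hlL : 0 < Real.log L := Real.log_pos (by linarith)
  obtain ⟨M, hM⟩ : ∃ M : ℕ, M = m * 2 ^ (I * (J - 1 - j)) := ⟨_, rfl⟩
  rw [← hM]
  have hM1 : 1 ≤ M := by
    rw [hM]
    exact Nat.mul_pos hm (by positivity)
  have hzM : yj L I (j + 1) ^ (2 * M) ≤ H := by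
    rw [hM, Main_pow L I J j m hj]
    exact (Nat.pow_le_pow_left hJz _).trans hzH
  have hyj : L ≤ yj L I j := by
    calc L = L ^ 1 := (pow_one L).symm
      _ ≤ L ^ 3 := Nat.pow_le_pow_right hL1 (by norm_num)
      _ ≤ yj L I j := yj_ge L I j hL1
  -- `M ≤ d L/8`
  have hMd : (M : ℝ) ≤ d * L / 8 := by
    have h1 : L ^ (6 * M) ≤ x := by
      calc L ^ (6 * M) = (L ^ 3) ^ (2 * M) := by rw [← pow_mul]; congr 1; ring
        _ ≤ yj L I (j + 1) ^ (2 * M) := Nat.pow_le_pow_left (yj_ge L I (j + 1) hL1) _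
        _ ≤ H := hzM
        _ ≤ x := hHx
    have h2 : ((L : ℝ)) ^ (6 * M) ≤ x := by exact_mod_cast h1
    have h3 := Real.log_le_log (by positivity) h2
    rw [Real.log_pow] at h3
    push_cast at h3
    have h4 : 6 * (M : ℝ) * (2 / d) ≤ 6 * (M : ℝ) * Real.log L :=
      mul_le_mul_of_nonneg_left hlog (by positivity)
    have h5 : 6 * (M : ℝ) * (2 / d) ≤ L := by linarith
    have h6 : 6 * (M : ℝ) * (2 / d) = 12 * M / d := by ring
    rw [h6, div_le_iff₀ hd] at h5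
    have h7 : 0 ≤ (M : ℝ) := Nat.cast_nonneg M
    linarith
  have ht1 : d * L / 4 ≤ t := by
    rw [ht]
    exact Nat.le_ceil _
  have htL : t ≤ L := by
    rw [ht]
    refine Nat.ceil_le.2 ?_
    have : d * L ≤ 1 * L := mul_le_mul_of_nonneg_right hd1 hL0.le
    linarith
  have hMt : M ≤ t := by
    have h1 : (M : ℝ) ≤ t := by
      have h2 : 0 ≤ d * L := by positivity
      linarith
    exact_mod_cast h1
  have hρ : ∀ i : ℕ, i < M → ((L : ℝ) - i) ≤ 8 / d * ((t : ℝ) - i) := by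
    intro i hi
    have h1 : (i : ℝ) ≤ M := by exact_mod_cast hi.le
    have h2 : d * L / 8 ≤ (t : ℝ) - i := by linarith
    calc (L : ℝ) - i ≤ L := by
          have : (0 : ℝ) ≤ i := Nat.cast_nonneg i
          linarith
      _ = 8 / d * (d * L / 8) := by field_simp
      _ ≤ _ := mul_le_mul_of_nonneg_left h2 (by positivity)
  have hmain := kk_bound x H L (yj L I j) I M t (8 / d) (by omega) (yj_ge L I j hL1) hI (hw _ hyj) hM1
    (by rw [← yj_succ]; exact hzM) hMt htL (by positivity) hρ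
  rw [← yj_succ] at hmain
  have h1 : (16 : ℝ) / I * (8 / d) = 128 / (d * I) := by
    rw [div_mul_div_comm, mul_comm (I : ℝ) d]
    norm_num
  rw [h1] at hmain
  exact hmain

theorem main_le (d : ℝ) (hd : 0 < d) (hd1 : d ≤ 1) : ∃ C : ℕ, ∃ c : ℝ, 0 < c ∧ ∃ x₀ : ℕ, ∀ x H z : ℕ, x₀ ≤ x →
    H ≤ x → Real.log x ^ C ≤ z → z ^ 2 ≤ H →
    ({n : ℕ | x < n ∧ n ≤ x + H ∧
        d * Real.log x ≤ fewCount z (c * Real.log (Real.log z / Real.log (Real.log x))) n}.ncard : ℝ) ≤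
      H * Real.exp (-(c * Real.log H / Real.log z)) := by
  classical
  obtain ⟨y0, hy02, hwin⟩ := win
  obtain ⟨I, hI⟩ : ∃ I : ℕ, 4096 / d ≤ I := exists_nat_ge _
  have hdI : 4096 ≤ d * I := by
    rw [div_le_iff₀ hd] at hI
    linarith
  have hIr : (4096 : ℝ) ≤ I := by
    have h1 : d * I ≤ 1 * I := mul_le_mul_of_nonneg_right hd1 (Nat.cast_nonneg I)
    linarith
  have hI16 : 16 ≤ I := by
    have h1 : (16 : ℝ) ≤ I := by linarith
    exact_mod_cast h1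
  have hI0 : (0 : ℝ) < I := by linarith
  obtain ⟨x₀, hx₀⟩ := par2 I y0 (2 / d) (by omega)
  refine ⟨16 ^ I, 1 / (8 * I), by positivity, x₀, ?_⟩
  intro x H z hx hHx hz hzH
  obtain ⟨L, m, J, hL, hy0, hL3, hB, hm, hJ1, hzm, hm2, hJz, hJW, hxL, hL2, hlz, hlH, hx2⟩ :=
    hx₀ x H z hx hHx hz hzH
  have hL1 : 1 ≤ L := by omega
  obtain ⟨t, ht⟩ : ∃ t : ℕ, t = ⌈d * L / 4⌉₊ := ⟨_, rfl⟩
  obtain ⟨W, hW⟩ : ∃ W : ℝ, W = Real.log (Real.log z / Real.log (Real.log x)) := ⟨_, rfl⟩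
  rw [← hW] at hJW ⊢
  obtain ⟨S, hS⟩ : ∃ S : ℕ → Finset ℕ, S = fun j => (range H).filter
    (fun i => t ≤ (KK (yj L I j) (yj L I (j + 1)) L (x + 1 + i)).card) := ⟨_, rfl⟩
  have hr : 2 * (1 / (8 * (I : ℝ)) * W) ≤ J := by
    have h1 : 2 * (1 / (8 * (I : ℝ)) * W) = W / (4 * I) := by
      field_simp
      ring
    rw [h1]
    exact hJW
  have hset : {n : ℕ | x < n ∧ n ≤ x + H ∧ d * Real.log x ≤ fewCount z (1 / (8 * (I : ℝ)) * W) n} ⊆
      ((((range J).biUnion S).image (fun i => x + 1 + i) : Finset ℕ) : Set ℕ) := by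
    rintro n ⟨h1, h2, h3⟩
    rw [mem_coe, mem_image]
    refine ⟨n - (x + 1), ?_, by omega⟩
    have hn : n ≤ 2 ^ (L + 1) := by
      rw [pow_succ]
      omega
    obtain ⟨j, hj, hjT⟩ := pig n L I J z _ _ hL1 hJ1 hr hn hJz h3
    rw [mem_biUnion]
    refine ⟨j, mem_range.2 hj, ?_⟩
    rw [hS, mem_filter, mem_range]
    refine ⟨by omega, ?_⟩
    have h4 : x + 1 + (n - (x + 1)) = n := by omega
    rw [h4, ht]
    refine Nat.ceil_le.2 ?_
    have h5 : d * L ≤ d * (2 * Real.log x) := mul_le_mul_of_nonneg_left hL2 hd.le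
    linarith
  have hcard : ({n : ℕ | x < n ∧ n ≤ x + H ∧
      d * Real.log x ≤ fewCount z (1 / (8 * (I : ℝ)) * W) n}.ncard : ℝ) ≤ ∑ j ∈ range J, ((S j).card : ℝ) := by
    have h1 : {n : ℕ | x < n ∧ n ≤ x + H ∧
        d * Real.log x ≤ fewCount z (1 / (8 * (I : ℝ)) * W) n}.ncard ≤ ∑ j ∈ range J, (S j).card := by
      calc _ ≤ ((((range J).biUnion S).image (fun i => x + 1 + i) : Finset ℕ) : Set ℕ).ncard :=
            Set.ncard_le_ncard hset (Finset.finite_toSet _)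
        _ = (((range J).biUnion S).image (fun i => x + 1 + i)).card := Set.ncard_coe_finset _
        _ ≤ ((range J).biUnion S).card := card_image_le
        _ ≤ _ := card_biUnion_le
    exact_mod_cast h1
  have hone : ∀ j ∈ range J, ((S j).card : ℝ) ≤ 8 * H * (128 / (d * I)) ^ (m * 2 ^ (I * (J - 1 - j))) := by
    intro j hj
    rw [hS]
    exact Main_one x H z L m J I j t d hd hd1 hI16 hL3 (fun y hy => hwin y I (hy0.trans hy)) hB hm
      (mem_range.1 hj) hzm hJz hHx hxL ht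
  have hq : 128 / (d * I) ≤ 1 / 32 := by
    rw [div_le_div_iff₀ (by positivity) (by norm_num)]
    linarith
  have hq0 : 0 ≤ 128 / (d * I) := by positivity
  have hgeo := geo (128 / (d * I)) hq0 hq m J I hm (by omega)
  have hsum : ∑ j ∈ range J, ((S j).card : ℝ) ≤ H * (1 / 2) ^ m := by
    calc ∑ j ∈ range J, ((S j).card : ℝ) ≤
          ∑ j ∈ range J, 8 * H * (128 / (d * I)) ^ (m * 2 ^ (I * (J - 1 - j))) := Finset.sum_le_sum hone
      _ = 8 * H * ∑ j ∈ range J, (128 / (d * I)) ^ (m * 2 ^ (I * (J - 1 - j))) := by rw [Finset.mul_sum]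
      _ ≤ 8 * H * (2 * (128 / (d * I)) ^ m) := mul_le_mul_of_nonneg_left hgeo (by positivity)
      _ ≤ 8 * H * (2 * (1 / 32) ^ m) := by gcongr
      _ = H * (16 * (1 / 32) ^ m) := by ring
      _ ≤ H * (16 ^ m * (1 / 32) ^ m) := by
        refine mul_le_mul_of_nonneg_left (mul_le_mul_of_nonneg_right ?_ (by positivity)) (Nat.cast_nonneg H)
        calc (16 : ℝ) = 16 ^ 1 := (pow_one _).symm
          _ ≤ 16 ^ m := pow_le_pow_right₀ (by norm_num) hm
      _ = H * (1 / 2) ^ m := by rw [← mul_pow]; norm_num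
  refine hcard.trans (hsum.trans (mul_le_mul_of_nonneg_left ?_ (Nat.cast_nonneg H)))
  have h1 : ((1 : ℝ) / 2) ^ m = Real.exp (-(m * Real.log 2)) := by
    rw [← Real.log_pow, ← Real.log_inv, Real.exp_log (by positivity), one_div, inv_pow]
  rw [h1]
  refine Real.exp_le_exp.2 (neg_le_neg ?_)
  have hQ : 0 ≤ Real.log H / Real.log z := by positivity
  have h2 : Real.log H / (4 * Real.log z) = Real.log H / Real.log z / 4 := by
    rw [div_div, mul_comm 4]
  rw [h2] at hm2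
  have h3 : 1 / (8 * (I : ℝ)) * Real.log H / Real.log z = 1 / (8 * (I : ℝ)) * (Real.log H / Real.log z) := by
    rw [mul_div_assoc]
  rw [h3]
  have h4 : 1 / (8 * (I : ℝ)) ≤ 1 / 8 := by
    rw [div_le_div_iff₀ (by positivity) (by norm_num)]
    linarith
  have h5 : 1 / (8 * (I : ℝ)) * (Real.log H / Real.log z) ≤ 1 / 8 * (Real.log H / Real.log z) :=
    mul_le_mul_of_nonneg_right h4 hQ
  have log2a : 0.6931471803 < Real.log 2 := Real.log_two_gt_d9
  have hm0 : (0 : ℝ) ≤ m := Nat.cast_nonneg m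
  have h6 : (m : ℝ) * 0.5 ≤ m * Real.log 2 := mul_le_mul_of_nonneg_left (by linarith) hm0
  linarith

theorem main (d : ℝ) (hd : 0 < d) : ∃ C : ℕ, ∃ c : ℝ, 0 < c ∧ ∃ x₀ : ℕ, ∀ x H z : ℕ, x₀ ≤ x →
    H ≤ x → Real.log x ^ C ≤ z → z ^ 2 ≤ H →
    ({n : ℕ | x < n ∧ n ≤ x + H ∧
        d * Real.log x ≤ fewCount z (c * Real.log (Real.log z / Real.log (Real.log x))) n}.ncard : ℝ) ≤
      H * Real.exp (-(c * Real.log H / Real.log z)) := by
  rcases le_total d 1 with h | h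
  · exact main_le d hd h
  · obtain ⟨C, c, hc, x₀, hx⟩ := main_le 1 one_pos le_rfl
    refine ⟨C, c, hc, x₀ + 1, fun x H z h1 h2 h3 h4 => ?_⟩
    refine le_trans ?_ (hx x H z (by omega) h2 h3 h4)
    have h5 : 0 ≤ Real.log x := Real.log_nonneg (by exact_mod_cast (by omega : 1 ≤ x))
    have h6 : {n : ℕ | x < n ∧ n ≤ x + H ∧
        d * Real.log x ≤ fewCount z (c * Real.log (Real.log z / Real.log (Real.log x))) n} ⊆
        {n : ℕ | x < n ∧ n ≤ x + H ∧
        1 * Real.log x ≤ fewCount z (c * Real.log (Real.log z / Real.log (Real.log x))) n} := by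
      rintro n ⟨a1, a2, a3⟩
      exact ⟨a1, a2, le_trans (mul_le_mul_of_nonneg_right h h5) a3⟩
    have h7 : {n : ℕ | x < n ∧ n ≤ x + H ∧
        1 * Real.log x ≤ fewCount z (c * Real.log (Real.log z / Real.log (Real.log x))) n}.Finite :=
      (Set.finite_Iic (x + H)).subset fun n hn => hn.2.1
    exact_mod_cast Set.ncard_le_ncard h6 h7

end Pool.Agent.H.MP_c90f74_nt.MP
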